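import Pool.Agent.Helper33.DP.Sheet

/-!
# Doubly stochastic matrices with support in a graph (rows DS2, DS3, DS4 of MP_fcb106_co)
-/

set_option autoImplicit false

namespace Pool.Agent.Helper85.PL

open Finset Pool.Agent.Helper33.DP

theorem mem_comp {w : ℕ} {G₁ G₂ : Gr w} {a b : Fin w} :
    (a, b) ∈ comp G₁ G₂ ↔ ∃ x, (a, x) ∈ G₁ ∧ (x, b) ∈ G₂ := by
  classical
  simp [comp]

theorem DS2 : ST_DS2 := by
  intro w G₁ G₂ D₁ D₂ h1 h2
  refine ⟨?_, ?_, ?_, ?_⟩
  · intro a b
    exact sum_nonneg fun x _ => mul_nonneg (h1.nonneg a x) (h2.nonneg x b)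
  · intro a
    rw [sum_comm]
    calc ∑ x, ∑ b, D₁ a x * D₂ x b = ∑ x, D₁ a x * 1 := by
          refine sum_congr rfl fun x _ => ?_
          rw [← mul_sum, h2.row x]
      _ = 1 := by simp [h1.row a]
  · intro b
    rw [sum_comm]
    calc ∑ x, ∑ a, D₁ a x * D₂ x b = ∑ x, 1 * D₂ x b := by
          refine sum_congr rfl fun x _ => ?_
          rw [← sum_mul, h1.col x]
      _ = 1 := by simp [h2.col b]
  · intro a b hab
    refine sum_eq_zero fun x _ => ?_
    by_cases hx : (a, x) ∈ G₁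
    · have hxb : (x, b) ∉ G₂ := fun h => hab (mem_comp.2 ⟨x, hx, h⟩)
      rw [h2.supp x b hxb, mul_zero]
    · rw [h1.supp a x hx, zero_mul]

theorem DS3 : ST_DS3 := by
  classical
  intro w G θ h0 h1 hG
  refine ⟨⟨?_, ?_, ?_, ?_⟩, ?_⟩
  · intro a b
    refine sum_nonneg fun σ _ => ?_
    split_ifs
    · exact h0 σ
    · exact le_rfl
  · intro a
    rw [sum_comm]
    calc ∑ σ : Equiv.Perm (Fin w), ∑ b, (if σ a = b then θ σ else 0) = ∑ σ, θ σ := by
          refine sum_congr rfl fun σ _ => ?_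
          simp
      _ = 1 := h1
  · intro b
    rw [sum_comm]
    calc ∑ σ : Equiv.Perm (Fin w), ∑ a, (if σ a = b then θ σ else 0) = ∑ σ, θ σ := by
          refine sum_congr rfl fun σ _ => ?_
          have : ∀ a, (σ a = b) ↔ (a = σ.symm b) := fun a => by
            rw [Equiv.eq_symm_apply]
          simp [this]
      _ = 1 := h1
  · intro a b hab
    refine sum_eq_zero fun σ _ => ?_
    split_ifs with h
    · apply hG
      intro hp
      exact hab (h ▸ hp a)
    · rfl
  · intro f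
    calc ∑ σ, θ σ * ∑ i, f i (σ i) = ∑ σ, ∑ a, ∑ b, (if σ a = b then θ σ else 0) * f a b := by
          refine sum_congr rfl fun σ _ => ?_
          rw [mul_sum]
          refine sum_congr rfl fun a _ => ?_
          simp
      _ = ∑ a, ∑ σ, ∑ b, (if σ a = b then θ σ else 0) * f a b := by
          rw [sum_comm]
      _ = ∑ a, ∑ b, (∑ σ, if σ a = b then θ σ else 0) * f a b := by
          refine sum_congr rfl fun a _ => ?_
          rw [sum_comm]
          refine sum_congr rfl fun b _ => ?_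
          rw [sum_mul]

theorem DS4 : ST_DS4 := by
  classical
  intro w G hw hG
  obtain ⟨σ₀, hσ₀⟩ := hG.ex
  have hne : G.Nonempty := ⟨(⟨0, hw⟩, σ₀ ⟨0, hw⟩), hσ₀ _⟩
  have hcard : 0 < (G.card : ℝ) := by exact_mod_cast hne.card_pos
  have hle : (G.card : ℝ) ≤ (w : ℝ) ^ 2 := by
    have : G.card ≤ w * w := by
      calc G.card ≤ (univ : Finset (Fin w × Fin w)).card := card_le_card (subset_univ _)
        _ = w * w := by simp
    calc (G.card : ℝ) ≤ ((w * w : ℕ) : ℝ) := by exact_mod_cast this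
      _ = (w : ℝ) ^ 2 := by push_cast; ring
  -- a perfect matching through each edge
  have hch : ∀ e : Fin w × Fin w, ∃ σ : Equiv.Perm (Fin w), PM G σ ∧ (e ∈ G → σ e.1 = e.2) := by
    intro e
    by_cases he : e ∈ G
    · obtain ⟨σ, h1, h2⟩ := hG.edge e.1 e.2 he
      exact ⟨σ, h1, fun _ => h2⟩
    · exact ⟨σ₀, hσ₀, fun h => absurd h he⟩
  choose s hs1 hs2 using hch
  let θ : Equiv.Perm (Fin w) → ℝ := fun σ => ((G.filter (fun e => s e = σ)).card : ℝ) / G.card
  have hθ0 : ∀ σ, 0 ≤ θ σ := fun σ => by positivity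
  have hθ1 : ∑ σ, θ σ = 1 := by
    simp only [θ]
    rw [← sum_div]
    rw [div_eq_one_iff_eq hcard.ne']
    rw [← Nat.cast_sum]
    congr 1
    rw [card_eq_sum_card_fiberwise (f := s) (t := univ) (fun _ _ => mem_coe.2 (mem_univ _))]
  have hθG : ∀ σ, ¬ PM G σ → θ σ = 0 := by
    intro σ hσ
    simp only [θ]
    have : G.filter (fun e => s e = σ) = ∅ := by
      apply filter_eq_empty_iff.2
      intro e _ h
      exact hσ (h ▸ hs1 e)
    rw [this]; simp
  obtain ⟨hD, -⟩ := DS3 w G θ hθ0 hθ1 hθG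
  refine ⟨_, hD, ?_⟩
  intro a b hab
  have h1 : (1 : ℝ) / (w : ℝ) ^ 2 ≤ 1 / G.card := one_div_le_one_div_of_le hcard hle
  have h2 : (1 : ℝ) / G.card ≤ θ (s (a, b)) := by
    simp only [θ]
    apply div_le_div_of_nonneg_right _ hcard.le
    have : 1 ≤ (G.filter (fun e => s e = s (a, b))).card :=
      card_pos.2 ⟨(a, b), mem_filter.2 ⟨hab, rfl⟩⟩
    exact_mod_cast this
  have h3 : θ (s (a, b)) ≤ ∑ σ : Equiv.Perm (Fin w), if σ a = b then θ σ else 0 := by
    have := single_le_sum (f := fun σ : Equiv.Perm (Fin w) => if σ a = b then θ σ else 0)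
      (s := univ) (fun σ _ => by
        split_ifs
        · exact hθ0 σ
        · exact le_rfl) (mem_univ (s (a, b)))
    simpa [hs2 (a, b) hab] using this
  linarith

end Pool.Agent.Helper85.PL
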